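import Mathlib

/-!
The structure of a twisted Artin-Schreier extension over its invariants.
-/

set_option autoImplicit false

open Polynomial

universe u

namespace Pool.Agent.W991.Et

section

variable {k D : Type u} [Field k] [CommRing D] [IsDomain D] [Algebra k D]

/-- descending products -/
def ff (s θ : D) (j : ℕ) : D := ∏ i ∈ Finset.range j, (θ - (i : D) * s)

theorem sigma_ff (σ : D →ₐ[k] D) (s θ : D) (hs : σ s = s) (hθ : σ θ = θ + s) (j : ℕ) :
    σ (ff s θ (j + 1)) = (θ + s) * ff s θ j := by
  unfold ff
  rw [map_prod, Finset.prod_range_succ', mul_comm]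
  congr 1
  · simp [hθ]
  · apply Finset.prod_congr rfl
    intro i _
    simp only [map_sub, map_mul, map_natCast, hs, hθ]
    push_cast
    ring

theorem E_ff (σ : D →ₐ[k] D) (s θ : D) (hs : σ s = s) (hθ : σ θ = θ + s) (j : ℕ) :
    (σ.toLinearMap - 1) (ff s θ (j + 1)) = ((j + 1 : ℕ) : D) * (s * ff s θ j) := by
  have h1 : (σ.toLinearMap - 1) (ff s θ (j + 1)) = σ (ff s θ (j + 1)) - ff s θ (j + 1) := rfl
  rw [h1, sigma_ff σ s θ hs hθ]
  have h2 : ff s θ (j + 1) = ff s θ j * (θ - (j : D) * s) := by
    unfold ff
    rw [Finset.prod_range_succ]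
  rw [h2]
  push_cast
  ring

theorem E_mul (σ : D →ₐ[k] D) (c y : D) (hc : σ c = c) :
    (σ.toLinearMap - 1) (c * y) = c * (σ.toLinearMap - 1) y := by
  change σ (c * y) - c * y = c * (σ y - y)
  rw [map_mul, hc]; ring

theorem E_pow_mul (σ : D →ₐ[k] D) (c y : D) (hc : σ c = c) (n : ℕ) :
    ((σ.toLinearMap - 1) ^ n) (c * y) = c * ((σ.toLinearMap - 1) ^ n) y := by
  induction n with
  | zero => simp
  | succ n ih => rw [pow_succ', Module.End.mul_apply, ih, E_mul σ c _ hc, Module.End.mul_apply]

theorem E_pow_ff (σ : D →ₐ[k] D) (s θ : D) (hs : σ s = s) (hθ : σ θ = θ + s) (m : ℕ) :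
    ((σ.toLinearMap - 1) ^ m) (ff s θ m) = (m.factorial : D) * s ^ m := by
  induction m with
  | zero => simp [ff]
  | succ m ih =>
    rw [pow_succ, Module.End.mul_apply, E_ff σ s θ hs hθ]
    have h1 : ((m + 1 : ℕ) : D) * (s * ff s θ m) = (((m + 1 : ℕ) : D) * s) * ff s θ m := by ring
    rw [h1, E_pow_mul σ _ _ (by rw [map_mul, map_natCast, hs]), ih, Nat.factorial_succ]
    push_cast
    ring

theorem dec_core (p : ℕ) (hp : p.Prime) (hpk : (p : k) = 0) (σ : D →ₐ[k] D)
    (R : Subalgebra k D) (s θ : D) (hs0 : s ≠ 0) (hsR : s ∈ R) (hs : σ s = s) (hθR : θ ∈ R)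
    (hθ : σ θ = θ + s) (hd : ∀ c ∈ R, ∃ c' ∈ R, σ c = c + s * c')
    (hσp : ∀ c ∈ R, σ^[p] c = c) :
    (∀ x ∈ R, ∃ c : Fin p → D, (∀ i, c i ∈ R ∧ σ (c i) = c i) ∧ x = ∑ i, c i * θ ^ (i : ℕ)) ∧
    (∀ c : Fin p → D, (∀ i, σ (c i) = c i) → ∑ i, c i * θ ^ (i : ℕ) = 0 → ∀ i, c i = 0) := by
  haveI : Fact p.Prime := ⟨hp⟩
  have hpD : (p : D) = 0 := by
    have := congrArg (algebraMap k D) hpk
    rwa [map_natCast, map_zero] at this
  haveI : CharP D p := (CharP.charP_iff_prime_eq_zero hp).2 hpD
  haveI : CharP k p := (CharP.charP_iff_prime_eq_zero hp).2 hpk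
  constructor
  · -- divisibility
    have hdiv : ∀ j : ℕ, ∀ x ∈ R, ∃ y ∈ R, ((σ.toLinearMap - 1) ^ j) x = s ^ j * y := by
      intro j
      induction j with
      | zero => intro x hx; exact ⟨x, hx, by simp⟩
      | succ j ih =>
        intro x hx
        obtain ⟨y, hy, hxy⟩ := ih x hx
        obtain ⟨y', hy', hyy⟩ := hd y hy
        refine ⟨y', hy', ?_⟩
        rw [pow_succ', Module.End.mul_apply, hxy, E_mul σ _ _ (by rw [map_pow, hs])]
        change s ^ j * (σ y - y) = _
        rw [hyy]; ring
    let F : Subalgebra k D := R ⊓ AlgHom.equalizer σ (AlgHom.id k D)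
    have hF : ∀ c, c ∈ F ↔ c ∈ R ∧ σ c = c := by
      intro c
      rw [Algebra.mem_inf, AlgHom.mem_equalizer]
      rfl
    have hsF : s ∈ F := (hF s).2 ⟨hsR, hs⟩
    let G : ℕ → F[X] := fun j => ∏ i ∈ Finset.range j, (X - Polynomial.C ((i : F) * ⟨s, hsF⟩))
    have hG : ∀ j, aeval θ (G j) = ff s θ j := by
      intro j
      simp only [G, ff, map_prod]
      apply Finset.prod_congr rfl
      intro i _
      rw [map_sub, aeval_X, aeval_C]
      rfl
    have hGd : ∀ j, (G j).degree ≤ j := by
      intro j
      refine (Polynomial.degree_prod_le _ _).trans ?_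
      calc _ ≤ ∑ _i ∈ Finset.range j, (1 : WithBot ℕ) := by
            apply Finset.sum_le_sum
            intro i _
            exact Polynomial.degree_X_sub_C_le _
        _ = j := by simp
    have main : ∀ m : ℕ, m ≤ p → ∀ x ∈ R, ((σ.toLinearMap - 1) ^ m) x = 0 →
        ∃ q : F[X], q.degree < m ∧ aeval θ q = x := by
      intro m
      induction m with
      | zero =>
        intro _ x _ hx
        refine ⟨0, ?_, ?_⟩
        · rw [Polynomial.degree_zero]; exact WithBot.bot_lt_coe _
        · rw [map_zero]; simpa using hx.symm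
      | succ m ih =>
        intro hm x hx hx0
        obtain ⟨y, hy, hxy⟩ := hdiv m x hx
        have hyσ : σ y = y := by
          rw [pow_succ', Module.End.mul_apply, hxy, E_mul σ _ _ (by rw [map_pow, hs])] at hx0
          have h1 : (σ.toLinearMap - 1) y = 0 :=
            (mul_eq_zero.1 hx0).resolve_left (pow_ne_zero _ hs0)
          have h2 : σ y - y = 0 := h1
          exact sub_eq_zero.1 h2
        have hfac : ((m.factorial : ℕ) : k) ≠ 0 := by
          intro h0
          have := (CharP.cast_eq_zero_iff k p _).1 h0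
          rw [hp.dvd_factorial] at this
          omega
        set c : D := ((m.factorial : ℕ) : k)⁻¹ • y with hc
        have hcF : c ∈ F := by
          rw [hF]
          exact ⟨R.smul_mem hy _, by rw [hc, map_smul, hyσ]⟩
        have hcσ : σ c = c := ((hF c).1 hcF).2
        have hcm : c * (m.factorial : D) = y := by
          rw [hc, smul_mul_assoc]
          have : y * (m.factorial : D) = ((m.factorial : ℕ) : k) • y := by
            rw [Algebra.smul_def, map_natCast, mul_comm]
          rw [this, smul_smul, inv_mul_cancel₀ hfac, one_smul]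
        have hffR : ff s θ m ∈ R := by
          unfold ff
          apply Subalgebra.prod_mem
          intro i _
          exact sub_mem hθR (mul_mem (natCast_mem _ _) hsR)
        obtain ⟨q, hq, hqx⟩ := ih (by omega) (x - c * ff s θ m)
          (sub_mem hx (mul_mem ((hF c).1 hcF).1 hffR)) (by
            rw [map_sub, hxy, E_pow_mul σ _ _ hcσ, E_pow_ff σ s θ hs hθ, ← hcm]
            ring)
        refine ⟨q + Polynomial.C ⟨c, hcF⟩ * G m, ?_, ?_⟩
        · refine (Polynomial.degree_add_le _ _).trans_lt (max_lt ?_ ?_)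
          · refine hq.trans ?_
            exact_mod_cast Nat.lt_succ_self m
          · have h1 : (Polynomial.C (⟨c, hcF⟩ : F) * G m).degree ≤ m := by
              refine (Polynomial.degree_mul_le _ _).trans ?_
              calc _ ≤ (0 : WithBot ℕ) + m := add_le_add Polynomial.degree_C_le (hGd m)
                _ = m := zero_add _
            refine h1.trans_lt ?_
            exact_mod_cast Nat.lt_succ_self m
        · rw [map_add, map_mul, hqx, aeval_C, hG]
          change x - c * ff s θ m + c * ff s θ m = x
          ring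
    intro x hx
    have hEp : ((σ.toLinearMap - 1) ^ p) x = 0 := by
      haveI : CharP (Module.End k D) p := by
        refine (CharP.charP_iff_prime_eq_zero hp).2 ?_
        ext d
        have : ((p : Module.End k D)) d = (p : D) * d := by
          rw [Module.End.natCast_apply, nsmul_eq_mul]
        rw [this, hpD]; simp
      have h1 : (σ.toLinearMap - 1) ^ p = σ.toLinearMap ^ p - 1 := by
        have := sub_pow_char_of_commute (R := Module.End k D) p
          (x := σ.toLinearMap) (y := 1) (Commute.one_right _)
        rw [this, one_pow]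
      rw [h1]
      have h2 : (σ.toLinearMap ^ p) x = σ^[p] x := by
        rw [Module.End.pow_apply]
        rfl
      change (σ.toLinearMap ^ p) x - x = 0
      rw [h2, hσp x hx, sub_self]
    obtain ⟨q, hq, hqx⟩ := main p le_rfl x hx hEp
    have hqn : q.natDegree < p := by
      by_cases h0 : q = 0
      · rw [h0, Polynomial.natDegree_zero]; exact hp.pos
      · exact (Polynomial.natDegree_lt_iff_degree_lt h0).2 hq
    refine ⟨fun i => ((q.coeff i : F) : D), fun i => (hF _).1 (q.coeff i).2, ?_⟩
    rw [← hqx, Polynomial.aeval_eq_sum_range' hqn, Finset.sum_range]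
    rfl
  · intro c hc h0
    have hroot : ∀ j : ℕ, ∑ i, c i * (θ + (j : D) * s) ^ (i : ℕ) = 0 := by
      intro j
      induction j with
      | zero => simpa using h0
      | succ j ih =>
        have := congrArg σ ih
        rw [map_sum, map_zero] at this
        rw [← this]
        apply Finset.sum_congr rfl
        intro i _
        rw [map_mul, hc, map_pow, map_add, map_mul, map_natCast, hs, hθ]
        push_cast
        ring
    let q : D[X] := ∑ i : Fin p, Polynomial.C (c i) * X ^ (i : ℕ)
    have hq0 : q = 0 := by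
      have hinj : Function.Injective (fun j : Fin p => θ + ((j : ℕ) : D) * s) := by
        intro i j hij
        have h1 : ((i : ℕ) : D) * s = ((j : ℕ) : D) * s := add_left_cancel hij
        have h2 := mul_right_cancel₀ hs0 h1
        have h3 := CharP.natCast_injOn_Iio D p (Set.mem_Iio.2 i.2) (Set.mem_Iio.2 j.2) h2
        exact Fin.ext h3
      apply Polynomial.eq_zero_of_natDegree_lt_card_of_eval_eq_zero q hinj
      · intro j
        simp only [q, Polynomial.eval_finset_sum, Polynomial.eval_mul, Polynomial.eval_C,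
          Polynomial.eval_pow, Polynomial.eval_X]
        exact hroot j
      · rw [Fintype.card_fin]
        refine lt_of_le_of_lt (Polynomial.natDegree_sum_le_of_forall_le (n := p - 1) _ _ ?_)
          (Nat.sub_lt hp.pos one_pos)
        intro i _
        refine (Polynomial.natDegree_C_mul_X_pow_le _ _).trans ?_
        have := i.2
        omega
    intro i
    have h1 : q.coeff (i : ℕ) = c i := by
      simp only [q, Polynomial.finset_sum_coeff, Polynomial.coeff_C_mul, Polynomial.coeff_X_pow]
      rw [Finset.sum_eq_single i]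
      · simp
      · intro j _ hj
        have : (i : ℕ) ≠ (j : ℕ) := fun h => hj (Fin.ext h.symm)
        simp [this]
      · simp
    rw [← h1, hq0, Polynomial.coeff_zero]

end

end Pool.Agent.W991.Et
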