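import Pool.Agent.W559.Et.Stm
import Pool.Agent.W991.Et.DecCore

set_option autoImplicit false

universe u

namespace Pool.Agent.W991.Et

theorem dec : Pool.Agent.W559.Et.DecStm.{u} :=
  fun _ _ _ _ _ _ p hp hpk σ R s θ hs0 hsR hs hθR hθ hd hσp =>
    dec_core p hp hpk σ R s θ hs0 hsR hs hθR hθ hd hσp

end Pool.Agent.W991.Et
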